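import Mathlib
import Pool.Agent.R102.TwoDense

set_option autoImplicit false

/-!
# Frankl's conjecture for 2-dense union-closed families

Every 2-dense union-closed family `F` over `[n]` has an element lying in at least half of its
members; more precisely the average size of the members of `F` is at least `n / 2`.

Proof. Let `G` be the closure of `F`; since the closure of `G` is the family of all nonempty sets,
`G` is an up-set. Hence, if `A, X ∈ F`, `X ⊄ A`, then every set `C ⊇ A ∪ X` is in `F` (take
`x ∈ X \ A`; the set `C \ {x} ⊇ A` is in `G`, and so `C = (C \ {x}) ∪ X ∈ F`). Let `H` be the set of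
the members of `F` all of whose supersets are in `F`. The union of two distinct members of
`M = F \ H` is in `H`. The sum of `2 |A| - n` over the up-set `H` is the number of the pairs `(B, x)`
with `B ∉ H`, `B ∪ {x} ∈ H`. For every `A ∈ M` there are at least `n - |A|` such pairs with
`A ⊆ B`, and no pair is counted for two different `A ∈ M`. So the sum of `2 |A| - n` over `F` is at
least the sum of `(n - |A|) + (2 |A| - n) = |A|` over `A ∈ M`.
-/

namespace Pool.Agent.Results.MP_5b71d7_co.TwoDense

open Finset

/-- The family `P_n` of all nonempty subsets of `[n]` (here `[n]` is `Fin n`). -/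
def allNonempty (n : ℕ) : Finset (Finset (Fin n)) := univ.filter (fun A => A.Nonempty)

/-- `F` is union-closed: `A ∪ B ∈ F` for all `A, B ∈ F`. -/
def UnionClosed {n : ℕ} (F : Finset (Finset (Fin n))) : Prop := ∀ A ∈ F, ∀ B ∈ F, A ∪ B ∈ F

/-- `F` is a union-closed family over `[n]`: it consists of nonempty subsets of `[n]`, contains
`[n]` and is union-closed. -/
def UnionClosedOver {n : ℕ} (F : Finset (Finset (Fin n))) : Prop :=
  F ⊆ allNonempty n ∧ univ ∈ F ∧ UnionClosed F

open scoped Classical in
/-- The closure of `F`: all nonempty sets `A` such that `F ∪ {A}` is union-closed. -/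
noncomputable def closure {n : ℕ} (F : Finset (Finset (Fin n))) : Finset (Finset (Fin n)) :=
  (allNonempty n).filter (fun A => UnionClosed (F ∪ {A}))

/-- `F` is `k`-dense: the least `j` such that the `j`-th iterated closure of `F` is the family of
all nonempty subsets of `[n]` is `j = k`. -/
def Dense {n : ℕ} (k : ℕ) (F : Finset (Finset (Fin n))) : Prop :=
  closure^[k] F = allNonempty n ∧ ∀ j < k, closure^[j] F ≠ allNonempty n

lemma mem_closure {n : ℕ} {F : Finset (Finset (Fin n))} {A : Finset (Fin n)} :
    A ∈ closure F ↔ A.Nonempty ∧ UnionClosed (F ∪ {A}) := by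
  simp [closure, allNonempty]

lemma subset_closure {n : ℕ} {F : Finset (Finset (Fin n))} (hF : UnionClosedOver F) :
    F ⊆ closure F := by
  intro A hA
  rw [mem_closure]
  refine ⟨by simpa [allNonempty] using hF.1 hA, ?_⟩
  have : F ∪ {A} = F := union_eq_left.2 (singleton_subset_iff.2 hA)
  rw [this]
  exact hF.2.2

/-- If the closure of `G` consists of all nonempty sets, then `G` is an up-set. -/
lemma upset_of_closure {n : ℕ} {G : Finset (Finset (Fin n))} (hG : closure G = allNonempty n)
    {Z B : Finset (Fin n)} (hZ : Z ∈ G) (hZne : Z.Nonempty) (hZB : Z ⊆ B) : B ∈ G := by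
  by_cases h : B ⊆ Z
  · rwa [h.antisymm hZB]
  · have hA : B \ Z ∈ closure G := by
      rw [hG]
      simp only [allNonempty, mem_filter, mem_univ, true_and]
      rwa [sdiff_nonempty]
    have h2 := (mem_closure.1 hA).2 Z (mem_union_left _ hZ) (B \ Z)
      (mem_union_right _ (mem_singleton_self _))
    rw [union_sdiff_of_subset hZB, mem_union, mem_singleton] at h2
    rcases h2 with h2 | h2
    · exact h2
    · exfalso
      obtain ⟨z, hz⟩ := hZne
      have h3 : z ∈ B \ Z := h2 ▸ hZB hz
      exact (mem_sdiff.1 h3).2 hz

/-- The key property of the families of density at most two. -/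
lemma key {n : ℕ} {F : Finset (Finset (Fin n))} (hF : UnionClosedOver F)
    (h2 : closure (closure F) = allNonempty n) :
    ∀ A ∈ F, ∀ X ∈ F, ¬ X ⊆ A → ∀ C, A ∪ X ⊆ C → C ∈ F := by
  intro A hA X hX hXA C hC
  obtain ⟨x, hxX, hxA⟩ := not_subset.1 hXA
  have hAne : A.Nonempty := by simpa [allNonempty] using hF.1 hA
  have hAB : A ⊆ C.erase x := by
    intro a ha
    exact mem_erase.2 ⟨fun h => hxA (h ▸ ha), hC (mem_union_left _ ha)⟩
  have hB : C.erase x ∈ closure F := upset_of_closure h2 (subset_closure hF hA) hAne hAB
  have h3 := (mem_closure.1 hB).2 X (mem_union_left _ hX) (C.erase x)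
    (mem_union_right _ (mem_singleton_self _))
  have hxC : x ∈ C := hC (mem_union_right _ hxX)
  have h4 : X ∪ C.erase x = C := by
    ext y
    rw [mem_union, mem_erase]
    constructor
    · rintro (h | h)
      · exact hC (mem_union_right _ h)
      · exact h.2
    · intro h
      by_cases hy : y = x
      · exact Or.inl (hy ▸ hxX)
      · exact Or.inr ⟨hy, h⟩
  rw [h4, mem_union, mem_singleton] at h3
  rcases h3 with h3 | h3
  · exact h3
  · exfalso
    have h5 : x ∈ C.erase x := h3 ▸ hxC
    exact notMem_erase x C h5

/-- The members of a 2-dense union-closed family over `[n]` have average size at least `n / 2`. -/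
theorem average (n : ℕ) (F : Finset (Finset (Fin n))) (hF : UnionClosedOver F)
    (h2 : Dense 2 F) : n * F.card ≤ 2 * ∑ A ∈ F, A.card := by
  have h := Pool.Agent.R102.TwoDense.average F hF.2.1 (key hF h2.1)
  rwa [Fintype.card_fin] at h

/-- Every 2-dense union-closed family `F` over `[n]`, `n ≥ 1`, satisfies Frankl's condition: some
`i ∈ [n]` lies in at least `|F| / 2` (so in at least `⌊|F| / 2⌋`) members of `F`. -/
theorem result (n : ℕ) (hn : 1 ≤ n) (F : Finset (Finset (Fin n))) (hF : UnionClosedOver F)
    (h2 : Dense 2 F) :
    ∃ i : Fin n, F.card ≤ 2 * (F.filter (fun A => i ∈ A)).card := by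
  have : Nonempty (Fin n) := ⟨⟨0, hn⟩⟩
  exact Pool.Agent.R102.TwoDense.exists_half F (by
    rw [Fintype.card_fin]
    exact average n F hF h2)

end Pool.Agent.Results.MP_5b71d7_co.TwoDense
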